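import Mathlib

namespace Pool.Agent.Results.MP_66cbdd_co.Upper

open Finset

/-- `x` is an `n`-dimensional joint of the family of lines. -/
def IsJoint {α : Type} (M : Matroid α) (𝔏 : Finset (Set α)) (n : ℕ) (x : α) : Prop :=
  x ∈ M.E ∧ ∃ l : Fin n → Set α, (∀ i, l i ∈ 𝔏 ∧ x ∈ l i) ∧ (n + 1 : ℕ∞) ≤ M.eRk (⋃ i, l i)

theorem sub {α : Type} {M : Matroid α} (hs : ∀ e ∈ M.E, ∀ f ∈ M.E, M.Indep {e, f})
    {l F : Set α} (hl : M.IsFlat l) (h2 : M.eRk l = 2) (hF : M.IsFlat F) {x y : α} (hxy : x ≠ y)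
    (hx : x ∈ l) (hy : y ∈ l) (hx' : x ∈ F) (hy' : y ∈ F) : l ⊆ F := by
  have hE := hl.subset_ground
  have hb : M.IsBasis {x, y} l := by
    rw [Matroid.isBasis_iff_indep_encard_eq_of_finite (Set.toFinite _) hE]
    exact ⟨Set.pair_subset hx hy, hs x (hE hx) y (hE hy), by rw [Set.encard_pair hxy, h2]⟩
  refine hb.subset_closure.trans ?_
  rw [← hF.closure]
  exact M.closure_subset_closure (Set.pair_subset hx' hy')

theorem core {α β : Type} [DecidableEq α] [DecidableEq β] (J : Finset α) (L : Finset β)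
    (m o : α → β) (hm : ∀ x ∈ J, m x ∈ L) (ho : ∀ x ∈ J, o x ∈ L)
    (inj : ∀ x ∈ J, ∀ y ∈ J, m x = m y → o x = o y → x = y)
    (F : β → β → Finset α) (hF : ∀ a ∈ L, ∀ b ∈ L, (F a b).card ≤ L.card)
    (hT : ∀ x ∈ J, ∀ y ∈ J, ∀ z ∈ J, x ≠ y → m x = m z → m y = m z → z ∈ F (o x) (o y)) :
    J.card ^ 3 ≤ 2 * L.card ^ 5 := by
  let D : β → Finset α := fun l => J.filter fun x => m x = l
  have hD : ∀ l, (D l).card ≤ L.card := fun l =>
    card_le_card_of_injOn o (fun x hx => ho x (mem_filter.1 hx).1) fun x hx y hy e =>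
      inj x (mem_filter.1 hx).1 y (mem_filter.1 hy).1
        ((mem_filter.1 hx).2.trans (mem_filter.1 hy).2.symm) e
  have h1 : (L.sigma fun l => (D l).offDiag ×ˢ D l).card ≤
      ((L ×ˢ L).sigma fun p => F p.1 p.2).card := by
    refine card_le_card_of_injOn (fun q => ⟨(o q.2.1.1, o q.2.1.2), q.2.2⟩) ?_ ?_
    · rintro ⟨l, ⟨x, y⟩, z⟩ hq
      simp only [D, coe_sigma, Set.mem_sigma_iff, mem_coe, mem_product, mem_offDiag,
        mem_filter] at hq ⊢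
      obtain ⟨-, ⟨hx, hy, hxy⟩, hz⟩ := hq
      exact ⟨⟨ho x hx.1, ho y hy.1⟩,
        hT x hx.1 y hy.1 z hz.1 hxy (hx.2.trans hz.2.symm) (hy.2.trans hz.2.symm)⟩
    · rintro ⟨l, ⟨x, y⟩, z⟩ hq ⟨l', ⟨x', y'⟩, z'⟩ hq' e
      simp only [D, coe_sigma, Set.mem_sigma_iff, mem_coe, mem_product, mem_offDiag,
        mem_filter] at hq hq'
      simp only [Sigma.mk.injEq, Prod.mk.injEq, heq_eq_eq] at e
      obtain ⟨-, ⟨hx, hy, -⟩, hz⟩ := hq
      obtain ⟨-, ⟨hx', hy', -⟩, hz'⟩ := hq'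
      obtain ⟨⟨e1, e2⟩, rfl⟩ := e
      obtain rfl : l = l' := hz.2.symm.trans hz'.2
      obtain rfl := inj x hx.1 x' hx'.1 (hx.2.trans hx'.2.symm) e1
      obtain rfl := inj y hy.1 y' hy'.1 (hy.2.trans hy'.2.symm) e2
      rfl
  rw [card_sigma, card_sigma] at h1
  have h2 : ∑ p ∈ L ×ˢ L, (F p.1 p.2).card ≤ L.card ^ 3 := by
    refine (sum_le_card_nsmul _ _ L.card fun p hp =>
      hF _ (mem_product.1 hp).1 _ (mem_product.1 hp).2).trans (le_of_eq ?_)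
    simp only [card_product, smul_eq_mul]; ring
  have h3 : ∑ l ∈ L, (D l).card ^ 3 ≤
      ∑ l ∈ L, (((D l).offDiag ×ˢ D l).card + L.card ^ 2) := by
    refine sum_le_sum fun l _ => ?_
    rw [card_product, offDiag_card]
    have a := hD l
    have b : (D l).card ≤ (D l).card * (D l).card := Nat.le_mul_self _
    have c := Nat.mul_le_mul a a
    generalize (D l).card = d at *
    obtain ⟨e, he⟩ := Nat.exists_eq_add_of_le b
    rw [he, Nat.add_sub_cancel_left]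
    have : d ^ 3 = d * d + e * d := by rw [← add_mul, ← he]; ring
    nlinarith
  rw [sum_add_distrib, sum_const, smul_eq_mul] at h3
  have h4 : J.card = ∑ l ∈ L, (D l).card := card_eq_sum_card_fiberwise hm
  have h5 := pow_sum_le_card_mul_sum_pow (s := L) (f := fun l => (D l).card)
    (fun _ _ => Nat.zero_le _) 2
  rw [← h4] at h5
  have h6 : ∑ l ∈ L, (D l).card ^ 3 ≤ 2 * L.card ^ 3 := by
    have : L.card * L.card ^ 2 = L.card ^ 3 := by ring
    omega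
  calc J.card ^ 3 ≤ L.card ^ 2 * (2 * L.card ^ 3) :=
        h5.trans (Nat.mul_le_mul (by simp) h6)
    _ = _ := by ring

theorem result (α : Type) (M : Matroid α) (hfin : M.E.Finite)
    (hs : ∀ e ∈ M.E, ∀ f ∈ M.E, M.Indep {e, f}) (𝔏 : Finset (Set α))
    (hL : ∀ l ∈ 𝔏, M.IsFlat l ∧ M.eRk l = 2) (n : ℕ) (hn : 4 ≤ n) :
    {x | IsJoint M 𝔏 n x}.ncard ^ 3 ≤ 2 * 𝔏.card ^ 5 := by
  classical
  have hJ : {x | IsJoint M 𝔏 n x}.Finite := hfin.subset fun x hx => hx.1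
  have out : ∀ x, IsJoint M 𝔏 n x → ∀ F, M.eRk F ≤ 4 → ∃ l ∈ 𝔏, x ∈ l ∧ ¬ l ⊆ F := by
    rintro x ⟨-, l, h1, h2⟩ F hF
    by_contra h
    push Not at h
    have := h2.trans ((M.eRk_mono (Set.iUnion_subset fun i => h _ (h1 i).1 (h1 i).2)).trans hF)
    have : n + 1 ≤ 4 := by exact_mod_cast this
    omega
  have ex : ∀ x, IsJoint M 𝔏 n x → ∃ p : Set α × Set α,
      p.1 ∈ 𝔏 ∧ p.2 ∈ 𝔏 ∧ x ∈ p.1 ∧ x ∈ p.2 ∧ ¬ p.2 ⊆ p.1 := by
    intro x hx
    obtain ⟨a, ha, xa, -⟩ := out x hx ∅ (by simp)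
    obtain ⟨b, hb, xb, h⟩ := out x hx a (by rw [(hL a ha).2]; norm_num)
    exact ⟨(a, b), ha, hb, xa, xb, h⟩
  choose! p hp using ex
  rw [Set.ncard_eq_toFinset_card _ hJ]
  refine core hJ.toFinset 𝔏 (fun x => (p x).1) (fun x => (p x).2)
    (fun x hx => (hp x (by simpa using hx)).1) (fun x hx => (hp x (by simpa using hx)).2.1)
    (fun x hx y hy e1 e2 => ?_)
    (fun a b => hJ.toFinset.filter fun z => z ∈ M.closure (a ∪ b)) (fun a ha b hb => ?_)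
    fun x hx y hy z hz hxy e1 e2 => ?_
  · obtain ⟨a1, a2, a3, a4, a5⟩ := hp x (by simpa using hx)
    obtain ⟨-, -, b3, b4, -⟩ := hp y (by simpa using hy)
    by_contra h
    exact a5 (sub hs (hL _ a2).1 (hL _ a2).2 (hL _ a1).1 h a4 (e2 ▸ b4) a3 (e1 ▸ b3))
  · have hr : M.eRk (M.closure (a ∪ b)) ≤ 4 := by
      rw [M.eRk_closure_eq]
      refine (M.eRk_union_le_eRk_add_eRk a b).trans ?_
      rw [(hL a ha).2, (hL b hb).2]; norm_num
    choose! q hq using fun x hx => out x hx _ hr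
    refine card_le_card_of_injOn q (fun x hx => ?_) fun x hx y hy e => ?_
    · exact (hq x (by simpa using (mem_filter.1 hx).1)).1
    · obtain ⟨hx, hx'⟩ := mem_filter.1 hx
      obtain ⟨hy, hy'⟩ := mem_filter.1 hy
      obtain ⟨a1, a2, a3⟩ := hq x (by simpa using hx)
      obtain ⟨-, b2, -⟩ := hq y (by simpa using hy)
      by_contra h
      exact a3 (sub hs (hL _ a1).1 (hL _ a1).2 (M.isFlat_closure _) h a2 (e ▸ b2) hx' hy')
  · obtain ⟨-, a2, a3, a4, -⟩ := hp x (by simpa using hx)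
    obtain ⟨-, b2, b3, b4, -⟩ := hp y (by simpa using hy)
    obtain ⟨c1, -, c3, -, -⟩ := hp z (by simpa using hz)
    have hE : (p x).2 ∪ (p y).2 ⊆ M.E :=
      Set.union_subset (hL _ a2).1.subset_ground (hL _ b2).1.subset_ground
    exact mem_filter.2 ⟨hz, sub hs (hL _ c1).1 (hL _ c1).2 (M.isFlat_closure _) hxy (e1 ▸ a3)
      (e2 ▸ b3) (M.subset_closure _ hE (Or.inl a4)) (M.subset_closure _ hE (Or.inr b4)) c3⟩

end Pool.Agent.Results.MP_66cbdd_co.Upper
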